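import Pool.Agent.H.MP_e9bccb.D

set_option autoImplicit false
open Set Filter Topology TopologicalSpace

namespace Pool.Agent.H.MP_11262c

open Pool.Agent.H.MP_e9bccb (Ls Cl apx ClU ind2)

variable {L K : Type} [TopologicalSpace L]

inductive G : Ordinal.{0} → L → Prop
  | mk (α : Ordinal.{0}) (y : L) (β : L → Ordinal.{0}) (h1 : ∀ᶠ z in 𝓝 y, z ≠ y → β z < α)
      (U : Set L) (hU : U ∈ 𝓝 y) (h2 : ∀ z ∈ U, z ≠ y → G (β z) z) : G α y

theorem wo (hs : ∀ S : Set L, S.Nonempty → ∃ x ∈ S, ∃ U : Set L, IsOpen U ∧ U ∩ S = {x}) :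
    ∃ (_ : LinearOrder L) (_ : WellFoundedLT L), ∀ y : L, Iic y ∈ 𝓝 y := by
  have h1 : ∀ y : L, ∃ α, G α y := by
    by_contra! h
    obtain ⟨y, hy, U, hU, e⟩ := hs {y | ∀ α, ¬G α y} h
    have h2 : ∀ z, ∃ β, z ∈ U → z ≠ y → G β z := fun z => by
      by_contra! k
      exact (k 0).2.1 (e.le ⟨(k 0).1, fun α => (k α).2.2⟩)
    choose β hβ using h2
    exact hy _ (G.mk (⨆ z, Order.succ (β z)) y β (.of_forall fun z _ => (Order.lt_succ _).trans_le
      (Ordinal.le_iSup (fun z => Order.succ (β z)) z)) U (hU.mem_nhds (e.ge rfl).1) hβ)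
  let ρ := fun y : L => toLex (sInf {α | G α y}, embeddingToCardinal y)
  refine ⟨.lift' ρ fun x y e => embeddingToCardinal.injective (congrArg Prod.snd e),
    ⟨InvImage.wf ρ wellFounded_lt⟩, fun y => ?_⟩
  have h2 : G (sInf {α | G α y}) y := csInf_mem (h1 y)
  generalize e : sInf {α | G α y} = γ at h2
  cases h2 with
  | mk _ _ β h3 U hU h4 =>
    filter_upwards [h3, hU] with z a b
    rcases eq_or_ne z y with rfl | c
    · exact le_refl (ρ z)
    · exact le_of_lt (show ρ z < ρ y from Prod.Lex.toLex_lt_toLex.2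
        (.inl (e ▸ (csInf_le' (s := {α | G α z}) (h4 z b c)).trans_lt (a c))))

variable [LinearOrder L] [WellFoundedLT L] [TopologicalSpace K] [CompactSpace K] {h : K → L → ℝ}

theorem str [RegularSpace L] [LindelofSpace L] (hw : ∀ y : L, Iic y ∈ 𝓝 y) (hc : Continuous h)
    (hk : ∀ k, Continuous (h k)) : ∃ (F : List L → Set L) (H : L → Set L) (m : Set L → L → L),
      (∀ l, (F l).Countable) ∧ ∀ T, Cl F T → (∀ z, IsLeast {b ∈ T | z ∈ H b} (m T z)) ∧
        (∀ z ∈ T, m T z = z) ∧ ∀ k, ∃ k', ∀ z, h k' z = h k (m T z) := by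
  choose H H1 H2 H3 using fun y => exists_mem_nhds_isClosed_subset (hw y)
  have : ∀ S : Set L, ∃ C : Set L, C.Countable ∧ (IsClosed S → C ⊆ S ∧ S ⊆ ⋃ y ∈ C, H y) := fun S =>
    (em (IsClosed S)).elim (fun k => (k.isLindelof.elim_nhds_subcover H fun y _ => H1 y).imp
      fun C e => ⟨e.1, fun _ => e.2⟩) fun k => ⟨∅, countable_empty, fun e => absurd e k⟩
  choose C C1 C2 using this
  obtain ⟨D, -, D2, D3⟩ := apx hc univ
  let F : List L → Set L := fun l => C univ ∪ ⋃ b ∈ {b | b ∈ l}, ⋃ k ∈ D l.tail, ⋃ q : ℚ × ℚ,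
    C (H b ∩ h k ⁻¹' Icc q.1 q.2)
  have : ∀ T z, ∃ b, Cl F T → IsLeast {b ∈ T | z ∈ H b} b := fun T z => by
    by_cases e : Cl F T
    · obtain ⟨y, y1, y2⟩ := mem_iUnion₂.1 ((C2 _ isClosed_univ).2 (mem_univ z))
      obtain ⟨b, b1, b2⟩ := wellFounded_lt.has_min {b ∈ T | z ∈ H b}
        ⟨y, e [] (by simp [Ls]) (Or.inl y1), y2⟩
      exact ⟨b, fun _ => ⟨b1, fun a k => not_lt.1 (b2 a k)⟩⟩
    · exact ⟨z, fun k => absurd k e⟩
  choose m hm using this
  refine ⟨F, H, m, fun l => (C1 _).union ((List.finite_toSet l).countable.biUnion fun b _ =>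
    (D2 _).biUnion fun k _ => countable_iUnion fun q => C1 _), fun T e => ⟨fun z => hm T z e,
      fun z k => ((hm T z e).2 ⟨k, mem_of_mem_nhds (H1 z)⟩).antisymm (H3 _ (hm T z e).1.2), fun k => ?_⟩⟩
  obtain ⟨q, q1, q2⟩ := D3 T k (subset_closure trivial)
  refine ⟨q, fun z => Eq.trans ?_ (q2 _ (hm T z e).1.1)⟩
  refine closure_minimal (t := {q | h q z = h q (m T z)}) (iUnion₂_subset fun l l1 k k1 => ?_)
    (isClosed_eq (by fun_prop) (by fun_prop)) q1
  have : ∀ p q : ℚ, h k z ∈ Icc (p : ℝ) q → h k (m T z) ∈ Icc (p : ℝ) q := fun p q a => by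
    obtain ⟨c1, c2⟩ := C2 _ ((H2 (m T z)).inter (isClosed_Icc.preimage (hk k)))
    obtain ⟨y, y1, y2⟩ := mem_iUnion₂.1 (c2 ⟨(hm T z e).1.2, a⟩)
    rw [← (H3 _ (c1 y1).1).antisymm ((hm T z e).2 ⟨e (m T z :: l) (List.forall_mem_cons.2
      ⟨(hm T z e).1.1, l1⟩) (Or.inr (mem_biUnion List.mem_cons_self (mem_biUnion k1
        (mem_iUnion.2 ⟨(p, q), y1⟩)))), y2⟩)]
    exact (c1 y1).2
  refine le_antisymm (not_lt.1 fun a => ?_) (not_lt.1 fun a => ?_)
  · obtain ⟨p, p1, p2⟩ := exists_rat_btwn a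
    obtain ⟨q, q1⟩ := exists_rat_gt (h k z)
    exact (this p q ⟨p2.le, q1.le⟩).1.not_gt p1
  · obtain ⟨p, p1, p2⟩ := exists_rat_btwn a
    obtain ⟨q, q1⟩ := exists_rat_lt (h k z)
    exact (this q p ⟨q1.le, p1.le⟩).2.not_gt p2

omit [TopologicalSpace L] in
theorem fin {W : Type} [LinearOrder W] [WellFoundedLT W] {T : W → Set L} (hT : Monotone T)
    {S : Set L} {m : W → L} (hm : ∀ a, IsLeast {b ∈ T a | b ∈ S} (m a)) :
    {a | m a ∉ ⋃ b ∈ Iio a, T b}.Finite := by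
  by_contra k
  let f := Set.Infinite.natEmbedding _ k
  obtain ⟨i, j, a, b, c⟩ := wellQuasiOrdered_le fun n => ((f n).1, m (f n))
  replace b := b.lt_of_ne fun e => a.ne (f.injective (Subtype.ext e))
  exact (f j).2 (mem_biUnion b (mem_of_eq_of_mem (c.antisymm
    ((hm _).2 ⟨hT b.le (hm _).1.1, (hm _).1.2⟩)).symm (hm _).1.1))

theorem clo (hw : ∀ y : L, Iic y ∈ 𝓝 y) (hc : Continuous h) (hi : IsInducing fun z k => h k z) :
    ∃ F : List L → Set L, (∀ l, (F l).Countable) ∧ ∀ T, Cl F T → IsClosed T := by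
  have : ∀ x, ∃ (s : Set K) (n : ℕ), s.Finite ∧ ∀ y, (∀ k ∈ s, |h k y - h k x| ≤ 2 * (1 / (n + 1))) →
      y ≤ x := fun x => by
    obtain ⟨V, v1, v2⟩ := mem_comap.1 (hi.nhds_eq_comap x ▸ hw x)
    obtain ⟨J, J1, s, s1, s2⟩ := Filter.mem_pi.1 (nhds_pi.ge v1)
    obtain ⟨n, hn⟩ := ((mul_zero (2 : ℝ) ▸ tendsto_one_div_add_atTop_nhds_zero_nat.const_mul 2).eventually
      (J1.eventually_all.2 fun x _ => eventually_closedBall_subset (s1 x))).exists
    exact ⟨J, n, J1, fun y e => v2 (s2 fun k a => hn k a (e k a))⟩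
  choose s n s1 s2 using this
  have : ∀ (l : List L) j, ∃ C : Set L, C.Countable ∧ ∀ x, n x = j → (∀ y ∈ l, ∀ k ∈ s x,
      |h k y - h k x| < 1 / (j + 1)) → ∃ b ∈ C, b ≤ x ∧ n b = j ∧ ∀ y ∈ l, ∀ k ∈ s b,
        |h k y - h k b| < 1 / (j + 1) := fun l j => by
    by_cases e : {x | n x = j ∧ ∀ y ∈ l, ∀ k ∈ s x, |h k y - h k x| < 1 / (j + 1)}.Nonempty
    · obtain ⟨b, b1, b2⟩ := wellFounded_lt.has_min _ e
      exact ⟨{b}, countable_singleton _, fun x a c => ⟨b, rfl, not_lt.1 (b2 x ⟨a, c⟩), b1⟩⟩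
    · exact ⟨∅, countable_empty, fun x a c => (e ⟨x, a, c⟩).elim⟩
  choose C C1 C2 using this
  refine ⟨fun l => ⋃ j, C l j, fun l => countable_iUnion (C1 l), fun T e => isClosed_of_closure_subset
    fun z hz => by_contra fun k => ?_⟩
  have c : ∀ k, Continuous (h k) := fun k => (continuous_apply k).comp hi.continuous
  have o : {y | ∀ k ∈ s z, |h k y - h k z| < 1 / (n z + 1)} ∈ 𝓝 z := (s1 z).eventually_all.2
    fun k _ => ContinuousAt.eventually_lt (Continuous.continuousAt (by fun_prop)) continuousAt_const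
      (by simpa using Nat.cast_add_one_pos (n z))
  obtain ⟨f, -, hf⟩ := isCompact_univ.inter_iInter_nonempty (fun y : ↥(T ∩ {y | ∀ k ∈ s z,
    |h k y - h k z| < 1 / (n z + 1)}) => {f | 1 / (n z + 1) ≤ |h f y - h f z|})
      (fun y => isClosed_le continuous_const (by fun_prop)) fun u => by
        obtain ⟨b, b1, b2, b3, b4⟩ := C2 (u.toList.map (↑)) _ z rfl
          fun y a => (List.mem_map.1 a).elim fun x a => a.2 ▸ x.2.2
        have b5 : b ∈ T := e _ (List.forall_mem_map.2 fun y _ => y.2.1) (mem_iUnion.2 ⟨_, b1⟩)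
        obtain ⟨f, f1, f2⟩ := not_forall₂.1 fun a => k ((s2 b z a).antisymm b2 ▸ b5)
        refine ⟨f, trivial, mem_iInter₂.2 fun y a => ?_⟩
        have c1 := abs_lt.1 (b4 y (List.mem_map_of_mem (Finset.mem_toList.2 a)) f f1)
        rw [b3, not_le, lt_abs] at f2
        rw [mem_ofPred_eq, le_abs]
        exact f2.symm.imp (fun _ => by linarith) fun _ => by linarith
  obtain ⟨y, y1, y2⟩ := mem_closure_iff_nhds.1 hz _ (inter_mem o (ContinuousAt.eventually_lt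
    (f := fun y => |h f y - h f z|) (g := fun _ => 1 / (n z + 1))
      (Continuous.continuousAt (by fun_prop)) continuousAt_const (by simpa using Nat.cast_add_one_pos (n z))))
  exact not_le.2 (show |h f y - h f z| < _ from y1.2) (mem_iInter.1 hf ⟨y, y2, y1.1⟩)

end Pool.Agent.H.MP_11262c
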