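import Pool.Agent.H.MP_11262c.A

set_option autoImplicit false
open Set Filter Topology TopologicalSpace

namespace Pool.Agent.H.MP_11262c

open Pool.Agent.H.MP_e9bccb (Ls Cl apx ClU ind2)
open Pool.Agent.H.MP_526336 (dfin)

variable {L K : Type} [TopologicalSpace L] [LinearOrder L] [WellFoundedLT L] [TopologicalSpace K]
  [CompactSpace K] {h : K → L → ℝ}

theorem sld [RegularSpace L] [LindelofSpace L] (hw : ∀ y : L, Iic y ∈ 𝓝 y) (hc : Continuous h)
    (hk : ∀ k, Continuous (h k)) (hi : h.Injective) (ε : ℝ) (hε : 0 < ε) : ∃ c : C(K, ℝ) → ℕ,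
      ∀ φ : C(K, ℝ), ∀ᶠ g in 𝓝 ⇑φ, ∀ ψ : C(K, ℝ), ⇑ψ = g → c ψ = c φ → ∀ k, |ψ k - φ k| ≤ ε := by
  obtain ⟨F, H, m, F1, hm⟩ := str hw hc hk
  choose m1 m2 m3 using hm
  have : ∀ T k, ∃ q, Cl F T → ∀ z, h q z = h k (m T z) := fun T k =>
    (em (Cl F T)).elim (fun e => (m3 T e k).imp fun _ a _ => a) fun e => ⟨k, fun a => absurd a e⟩
  choose r hr using this
  have rc : ∀ T, Cl F T → Continuous (r T) := fun T e =>
    (hc.isClosedEmbedding hi).isInducing.continuous_iff.2 (continuous_pi fun z =>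
      ((continuous_apply (m T z)).comp hc).congr fun k => (hr T k e z).symm)
  have u : Cl F univ := fun _ _ => subset_univ _
  have ru : ∀ k, r univ k = k := fun k => hi (funext fun z => (hr _ k u z).trans
    (congrArg _ (m2 _ u z trivial)))
  refine (ind2 F1 (fun T => Cl F T → ∀ ε : ℝ, 0 < ε → ∃ c : C(K, ℝ) → ℕ, ∀ φ : C(K, ℝ),
    ∀ᶠ g in 𝓝 ⇑φ, ∀ ψ : C(K, ℝ), ⇑ψ = g → c ψ = c φ → ∀ k, |ψ (r T k) - φ (r T k)| ≤ ε)
    (fun T t1 t2 ε e => ?_) (fun W _ _ _ T t1 t2 P t3 ε e => ?_) univ u u ε hε).imp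
      fun c k => by simpa only [ru] using k
  · have := isCompact_iff_compactSpace.1 (isCompact_range (rc T t2))
    have := (hc.isClosedEmbedding hi).isEmbedding.t2Space
    have := t1.to_subtype
    have := (Continuous.isClosedEmbedding (f := fun (k : range (r T)) (z : T) => h k z) (by fun_prop) (by
      rintro ⟨_, k, rfl⟩ ⟨_, q, rfl⟩ a
      refine Subtype.ext (hi (funext fun z => ?_))
      have := congrFun a ⟨_, (m1 T t2 z).1.1⟩
      simp only [hr T _ t2, m2 T t2 _ (m1 T t2 z).1.1] at this ⊢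
      exact this)).isEmbedding.secondCountableTopology
    choose c hc using fun φ : C(K, ℝ) => (denseRange_denseSeq _).exists_dist_lt
      (φ.restrict (range (r T))) (half_pos e)
    exact ⟨c, fun φ => .of_forall fun _ ψ _ a k => (ContinuousMap.dist_apply_le_dist
      (f := ψ.restrict _) (g := φ.restrict (range (r T))) ⟨_, k, rfl⟩).trans
        ((dist_triangle_right _ _ _).trans ((add_le_add (hc ψ).le (a ▸ hc φ).le).trans_eq
          (add_halves ε)))⟩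
  have ap : ∀ I : Set W, I.Nonempty → ∀ (φ : C(K, ℝ)) (η : ℝ), 0 < η → ∃ a ∈ I, ∀ b ∈ I, a ≤ b →
      ∀ k, |φ (r (⋃ b ∈ I, T b) k) - φ (r (T b) k)| < η := fun I i φ η e => by
    have := i.to_subtype
    have c := ClU t1 t2 i
    obtain ⟨u, hu⟩ := dfin hc hi φ.continuous e
    obtain ⟨a, ha⟩ := eventually_atTop.1 ((u.eventually_all (l := atTop) (p := fun z (b : I) =>
      m (⋃ b ∈ I, T b) z = m (T b) z)).2 fun z _ => by
        obtain ⟨a, a1, a2⟩ := mem_iUnion₂.1 (m1 _ c z).1.1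
        exact (eventually_ge_atTop ⟨a, a1⟩).mono fun b k => ((m1 _ c z).2 ⟨mem_biUnion b.2
          (m1 _ (t2 b) z).1.1, (m1 _ (t2 b) z).1.2⟩).antisymm
            ((m1 _ (t2 b) z).2 ⟨t1 k a2, (m1 _ c z).1.2⟩))
    exact ⟨a, a.2, fun b b1 b2 k => hu _ _ fun z a => by
      rw [hr _ _ c, hr _ _ (t2 b), ha ⟨b, b1⟩ b2 z a]⟩
  let J : ℕ → (K → ℝ) → Set W := fun j g => {a | (Iio a).Nonempty → ∃ k, (1 / (j + 1) : ℝ) <
    |g (r (T a) k) - g (r (⋃ b ∈ Iio a, T b) k)|}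
  have j1 : ∀ j (φ : C(K, ℝ)), (J j φ).Finite := fun j φ => by
    obtain ⟨u, hu⟩ := dfin hc hi φ.continuous (Nat.one_div_pos_of_nat (n := j))
    refine ((Subsingleton.finite (s := {a | ¬(Iio a).Nonempty}) fun a x b y => le_antisymm
      (not_lt.1 fun e => x ⟨b, e⟩) (not_lt.1 fun e => y ⟨a, e⟩)).union (u.finite_toSet.biUnion
        fun z _ => fin t1 fun a => m1 _ (t2 a) z)).subset fun a k => (em _).symm.imp_right fun i => ?_
    obtain ⟨k, e⟩ := k i
    have c := ClU t1 t2 i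
    by_contra b
    refine e.not_gt (hu _ _ fun z x => ?_)
    rw [hr _ _ c, hr _ _ (t2 a), ((m1 _ c z).2 ⟨not_not.1 fun y => b (mem_biUnion x y),
      (m1 _ (t2 a) z).1.2⟩).antisymm ((m1 _ (t2 a) z).2 ⟨iUnion₂_subset (fun b (y : b < a) => t1 y.le)
        (m1 _ c z).1.1, (m1 _ c z).1.2⟩)]
  have : ∀ φ : C(K, ℝ), ∃ j a, IsGreatest (J j φ) a ∧ ∀ k, |φ (r (⋃ a, T a) k) - φ (r (T a) k)| ≤ ε / 3 :=
    fun φ => by
      obtain ⟨a, ⟨η, a1, a2⟩, a3⟩ := wellFounded_lt.has_min {a | ∃ η < ε / 3, ∀ b, a ≤ b →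
        ∀ k, |φ (r (⋃ a, T a) k) - φ (r (T b) k)| ≤ η} (by
          obtain ⟨a, -, k⟩ := ap univ univ_nonempty φ (ε / 4) (by positivity)
          exact ⟨a, ε / 4, by linarith, fun b e x => by simpa using (k b trivial e x).le⟩)
      obtain ⟨j, hj⟩ : ∃ j, a ∈ J j φ := by
        by_contra! k
        obtain ⟨i, -⟩ := Classical.not_imp.1 (k 0)
        obtain ⟨b, b1, b2⟩ := ap _ i φ ((ε / 3 - η) / 2) (by linarith)
        refine a3 b ⟨η + (ε / 3 - η) / 2, by linarith, fun c x y => (lt_or_ge c a).elim (fun l => ?_)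
          fun l => (a2 c l y).trans (by linarith)⟩ b1
        have c1 := abs_le.1 (a2 a le_rfl y)
        have c2 := abs_lt.1 (b2 c l x y)
        have c3 := sub_eq_zero.1 (abs_nonpos_iff.1 (not_lt.1 fun l => (exists_nat_one_div_lt l).elim
          fun j l => k j fun _ => ⟨y, l⟩))
        exact abs_le.2 ⟨by linarith, by linarith⟩
      obtain ⟨b, b1, b2⟩ := exists_max_image _ id (j1 j φ) ⟨a, hj⟩
      exact ⟨j, b, ⟨b1, b2⟩, fun k => (a2 b (b2 a hj) k).trans a1.le⟩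
  choose j σ s1 s2 using this
  choose c hc using fun a => P a (t2 a) (ε / 3) (by positivity)
  refine ⟨fun φ => Nat.pair (j φ) (Nat.pair (j1 (j φ) φ).toFinset.card (c (σ φ) φ)), fun φ => ?_⟩
  filter_upwards [hc (σ φ) φ, ((j1 (j φ) φ).eventually_all (p := fun a g => a ∈ J (j φ) g)).2
    fun a k => (em _).elim (fun i => (k i).elim fun x k => (ContinuousAt.eventually_lt
      (f := fun _ => (1 / (j φ + 1) : ℝ)) (g := fun g : K → ℝ => |g (r (T a) x) - g (r _ x)|)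
        continuousAt_const (Continuous.continuousAt (by fun_prop)) k).mono fun g e _ => ⟨x, e⟩)
          fun i => .of_forall fun _ e => absurd e i]
  rintro _ y1 y2 ψ rfl y3 k
  obtain ⟨y3, y4⟩ := Nat.pair_eq_pair.1 y3
  obtain ⟨y4, y5⟩ := Nat.pair_eq_pair.1 y4
  have := (s1 ψ).unique ((Finite.toFinset_inj.1 (Finset.eq_of_subset_of_card_le
    ((j1 (j φ) φ).toFinset_subset_toFinset (ht := j1 (j ψ) ψ).2 (y3 ▸ y2)) y4.le)) ▸ s1 φ)
  have c1 := abs_le.1 (y1 ψ rfl (this ▸ y5) k)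
  have c2 := abs_le.1 (this ▸ s2 ψ k)
  have c3 := abs_le.1 (s2 φ k)
  exact abs_le.2 ⟨by linarith, by linarith⟩

end Pool.Agent.H.MP_11262c
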